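import Pool.Agent.Y674.FC.C
import Pool.Agent.Y798.OG.Stm2

set_option autoImplicit false

/-! OG-B: the Weyl datum of `SO(2m+1)` (adaptation of the file of helper674 for `USp(2g)`). -/

namespace Pool.Agent.Y629.OG

open Finset MeasureTheory UnitAddTorus Polynomial
open Pool.Agent.Y798.FC Pool.Agent.Y674.FC
open Pool.Agent.Y798.OG (bRoots StmB)

noncomputable section

/-- the rows of the determinant -/
def NB (y : UnitAddCircle) (k : ℕ) : ℂ := ee ((k : ℤ) + 1) y - ee (-(k : ℤ)) y

theorem NB_cont (k : ℕ) : Continuous fun y => NB y k := (ee_cont _).sub (ee_cont _)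

theorem NB_units (u : ℤˣ) (y : UnitAddCircle) :
    ∃ c : ℂ, ‖c‖ = 1 ∧ ∀ k : ℕ, NB ((u : ℤ) • y) k = c * NB y k := by
  rcases Int.units_eq_one_or u with rfl | rfl
  · refine ⟨1, norm_one, fun k => ?_⟩
    simp [NB]
  · refine ⟨-ee (-1) y, by rw [norm_neg, ee_norm], fun k => ?_⟩
    unfold NB
    rw [ee_smul, ee_smul]
    have e1 : ee (((k : ℤ) + 1) * ((-1 : ℤˣ) : ℤ)) y = ee (-1) y * ee (-(k : ℤ)) y := by
      rw [← ee_add]
      congr 1
      simp only [Units.val_neg, Units.val_one, mul_neg, mul_one]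
      ring
    have e2 : ee ((-(k : ℤ)) * ((-1 : ℤˣ) : ℤ)) y = ee (-1) y * ee ((k : ℤ) + 1) y := by
      rw [← ee_add]
      congr 1
      simp only [Units.val_neg, Units.val_one, mul_neg, mul_one]
      ring
    rw [e1, e2]
    ring

/-- the polynomials of the rows -/
def qq : ℕ → ℂ[X]
  | 0 => 1
  | 1 => X + 1
  | k + 2 => X * qq (k + 1) - qq k

theorem qq_prop (k : ℕ) : ((qq k).natDegree = k ∧ (qq k).Monic) ∧
    ((qq (k + 1)).natDegree = k + 1 ∧ (qq (k + 1)).Monic) := by
  induction k with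
  | zero =>
    have e : qq 1 = X + C 1 := by simp [qq]
    refine ⟨⟨?_, ?_⟩, ?_, ?_⟩
    · simp [qq]
    · exact monic_one
    · change (qq 1).natDegree = 1
      rw [e, natDegree_X_add_C]
    · change (qq 1).Monic
      rw [e]
      exact monic_X_add_C 1
  | succ k ih =>
    obtain ⟨⟨h1, h2⟩, h3, h4⟩ := ih
    have e : qq (k + 2) = X * qq (k + 1) - qq k := rfl
    have h5 : (X * qq (k + 1)).natDegree = k + 2 := by
      rw [natDegree_X_mul h4.ne_zero, h3]
    have h6 : (X * qq (k + 1)).Monic := monic_X.mul h4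
    have h7 : (qq k).natDegree < (X * qq (k + 1)).natDegree := by rw [h5, h1]; omega
    refine ⟨⟨h3, h4⟩, ?_, ?_⟩
    · change (qq (k + 2)).natDegree = k + 2
      rw [e, natDegree_sub_eq_left_of_natDegree_lt h7, h5]
    · change (qq (k + 2)).Monic
      rw [e]
      exact h6.sub_of_left (degree_lt_degree h7)

theorem NB_eq' (z w : ℂ) (hzw : z * w = 1) (k : ℕ) :
    z ^ (k + 1) - w ^ k = (z - 1) * (qq k).eval (z + w) ∧
    z ^ (k + 2) - w ^ (k + 1) = (z - 1) * (qq (k + 1)).eval (z + w) := by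
  induction k with
  | zero =>
    refine ⟨?_, ?_⟩
    · simp [qq]
    · simp only [qq, eval_add, eval_X, eval_one]
      linear_combination (-1 : ℂ) * hzw
  | succ k ih =>
    obtain ⟨h1, h2⟩ := ih
    refine ⟨h2, ?_⟩
    have e : qq (k + 1 + 1) = X * qq (k + 1) - qq k := rfl
    rw [e, eval_sub, eval_mul, eval_X]
    have h3 : (z - 1) * ((z + w) * (qq (k + 1)).eval (z + w) - (qq k).eval (z + w)) =
        (z + w) * (z ^ (k + 2) - w ^ (k + 1)) - (z ^ (k + 1) - w ^ k) := by
      rw [h1, h2]; ring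
    rw [h3]
    have h4 : z * w ^ (k + 1) = w ^ k := by
      rw [pow_succ' w k, ← mul_assoc, hzw, one_mul]
    have h5 : w * z ^ (k + 2) = z ^ (k + 1) := by
      rw [pow_succ' z (k + 1), ← mul_assoc, mul_comm w z, hzw, one_mul]
    linear_combination (-1 : ℂ) * h5 + h4

theorem NB_eq (y : UnitAddCircle) (k : ℕ) :
    NB y k = (ee 1 y - 1) * (qq k).eval (ee 1 y + ee (-1) y) := by
  rw [← (NB_eq' _ _ (ee_mul_neg y) k).1, ← ee_pow, ← ee_neg_pow]
  unfold NB
  push_cast
  rfl

/-- the determinant -/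
def MB {g : ℕ} (x : UnitAddTorus (Fin g)) : Matrix (Fin g) (Fin g) ℂ :=
  Matrix.of fun i j => NB (x i) j

theorem det_MB {g : ℕ} (x : UnitAddTorus (Fin g)) : (MB x).det =
    (∏ i, (ee 1 (x i) - 1)) *
      ∏ i, ∏ j ∈ Ioi i, ((ee 1 (x j) + ee (-1) (x j)) - (ee 1 (x i) + ee (-1) (x i))) := by
  rw [← Matrix.det_vandermonde (fun i => ee 1 (x i) + ee (-1) (x i)),
    Matrix.det_eval_matrixOfPolynomials_eq_det_vandermonde _ (fun j : Fin g => qq j)
      (fun j => (qq_prop j).1.1) (fun j => (qq_prop j).1.2), ← Matrix.det_mul_column]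
  congr 1
  ext i j
  simp only [MB, Matrix.of_apply]
  exact NB_eq _ _

theorem mF_one {g : ℕ} (i : Fin g) (x : UnitAddTorus (Fin g)) :
    mFourier (Pi.single i 1 : Fin g → ℤ) x = ee 1 (x i) := by
  rw [mFourier_single]
  rfl

theorem dens_eqB {g : ℕ} (x : UnitAddTorus (Fin g)) : dens (bRoots g) x = ‖(MB x).det‖ ^ 2 := by
  unfold Pool.Agent.Y798.FC.dens bRoots
  rw [prod_union, prod_union, prod_image, prod_image, prod_image]
  · simp_rw [mF_one, mF_sub1, mF_add1]
    rw [mul_assoc, ← prod_mul_distrib,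
      prod_pairs (fun i j => ‖1 - ee 1 (x i) * ee (-1) (x j)‖ ^ 2 * ‖1 - ee 1 (x i) * ee 1 (x j)‖ ^ 2),
      det_MB, norm_mul, mul_pow, norm_prod, norm_prod, ← prod_pow, ← prod_pow]
    congr 1
    · refine prod_congr rfl fun i _ => ?_
      rw [norm_sub_rev]
    · refine prod_congr rfl fun i _ => ?_
      rw [norm_prod, ← prod_pow]
      refine prod_congr rfl fun j _ => ?_
      have h1 : (1 - ee 1 (x i) * ee (-1) (x j)) * (1 - ee 1 (x i) * ee 1 (x j)) =
          ee 1 (x i) * -((ee 1 (x j) + ee (-1) (x j)) - (ee 1 (x i) + ee (-1) (x i))) := by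
        linear_combination (ee 1 (x i)) ^ 2 * ee_mul_neg (x j) - ee_mul_neg (x i)
      rw [← mul_pow, ← norm_mul, h1, norm_mul, norm_neg, ee_norm, one_mul]
  · rintro ⟨i, j⟩ hp ⟨i', j'⟩ hp' h
    simp only [coe_filter, mem_univ, true_and, Set.mem_setOf_eq] at hp hp'
    have h1 := congrFun h i
    have h2 := congrFun h j
    simp only [Pi.add_apply, Pi.single_apply] at h1 h2
    rw [Prod.mk.injEq]
    split_ifs at h1 h2 <;> first | omega | (constructor <;> first | assumption | omega) | (subst_vars; simp_all)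
  · rintro ⟨i, j⟩ hp ⟨i', j'⟩ hp' h
    simp only [coe_filter, mem_univ, true_and, Set.mem_setOf_eq] at hp hp'
    have h1 := congrFun h i
    have h2 := congrFun h j
    simp only [Pi.sub_apply, Pi.single_apply] at h1 h2
    rw [Prod.mk.injEq]
    split_ifs at h1 h2 <;> first | omega | (constructor <;> first | assumption | omega) | (subst_vars; simp_all)
  · intro i _ j _ h
    have h1 := congrFun h i
    simp only [Pi.single_apply] at h1
    split_ifs at h1 <;> first | assumption | omega | (subst_vars; simp_all)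
  · rw [disjoint_left]
    intro a ha hb
    simp only [mem_image, mem_univ, true_and, mem_filter, Prod.exists] at ha hb
    obtain ⟨i, rfl⟩ := ha
    obtain ⟨i', j', hij, h⟩ := hb
    have h1 := congrFun h j'
    simp only [Pi.sub_apply, Pi.single_apply] at h1
    split_ifs at h1 <;> first | omega | (subst_vars; simp_all)
  · rw [disjoint_left]
    intro a ha hb
    simp only [mem_image, mem_univ, true_and, mem_filter, Prod.exists, mem_union] at ha hb
    obtain ⟨i', j', hij, h⟩ := hb
    rcases ha with ⟨i, rfl⟩ | ⟨i, j, hij2, rfl⟩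
    · have h1 := congrFun h i'
      have h2 := congrFun h j'
      simp only [Pi.add_apply, Pi.single_apply] at h1 h2
      split_ifs at h1 h2 <;> first | omega | (subst_vars; simp_all)
    · have h1 := congrFun h j
      simp only [Pi.add_apply, Pi.sub_apply, Pi.single_apply] at h1
      split_ifs at h1 <;> omega

theorem inv_WB {g : ℕ} (w : Auts (Fin g)) (hw : w ∈ sympW g) (x : UnitAddTorus (Fin g)) :
    dens (bRoots g) (act w x) = dens (bRoots g) x := by
  obtain ⟨σ, s, h⟩ := hw
  rw [dens_eqB, dens_eqB]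
  choose c hc1 hc2 using fun i : Fin g => NB_units (s (σ⁻¹ i)) (x (σ⁻¹ i))
  have h1 : MB (act w x) = Matrix.of fun i j => c i *
      ((MB x).submatrix (σ⁻¹ : Equiv.Perm (Fin g)) id) i j := by
    ext i j
    simp only [MB, Matrix.of_apply, Matrix.submatrix_apply, id_eq]
    rw [act_eq h, hc2]
  rw [h1, Matrix.det_mul_column, Matrix.det_permute, norm_mul, norm_mul, norm_prod]
  have h2 : ∀ u : ℤˣ, ‖((u : ℤ) : ℂ)‖ = 1 := by
    intro u
    rcases Int.units_eq_one_or u with rfl | rfl <;> simp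
  rw [h2, one_mul, prod_congr rfl fun i _ => hc1 i, prod_const_one, one_mul]

theorem int_NB (a b : ℕ) :
    ∫ y, NB y a * starRingEnd ℂ (NB y b) ∂(AddCircle.haarAddCircle : Measure UnitAddCircle) =
      if a = b then 2 else 0 := by
  have h1 : ∀ y, NB y a * starRingEnd ℂ (NB y b) =
      ((ee ((a : ℤ) - b) y - ee ((a : ℤ) + b + 1) y) - ee (-((a : ℤ) + b + 1)) y) +
        ee ((b : ℤ) - a) y := by
    intro y
    unfold NB
    rw [map_sub, ← ee_neg, ← ee_neg, neg_neg, sub_mul, mul_sub, mul_sub, ← ee_add, ← ee_add,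
      ← ee_add, ← ee_add]
    have e1 : (a : ℤ) + 1 + -((b : ℤ) + 1) = a - b := by ring
    have e2 : (a : ℤ) + 1 + (b : ℤ) = a + b + 1 := by ring
    have e3 : -(a : ℤ) + -((b : ℤ) + 1) = -(a + b + 1) := by ring
    have e4 : -(a : ℤ) + (b : ℤ) = b - a := by ring
    rw [e1, e2, e3, e4]
    ring
  simp_rw [h1]
  refine (integral_add (((ee_int _).sub (ee_int _)).sub (ee_int _)) (ee_int _)).trans ?_
  rw [integral_sub' ((ee_int _).sub (ee_int _)) (ee_int _), integral_sub' (ee_int _) (ee_int _),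
    int_ee, int_ee, int_ee, int_ee]
  have h2 : ¬ ((a : ℤ) + b + 1 = 0) := by omega
  have h3 : ¬ (-((a : ℤ) + b + 1) = 0) := by omega
  rw [if_neg h2, if_neg h3]
  by_cases hab : a = b
  · rw [if_pos hab, if_pos (by omega), if_pos (by omega)]
    norm_num
  · rw [if_neg hab, if_neg (by omega), if_neg (by omega)]
    norm_num

theorem det_sqB {g : ℕ} (x : UnitAddTorus (Fin g)) : ((‖(MB x).det‖ ^ 2 : ℝ) : ℂ) =
    ∑ τ : Equiv.Perm (Fin g), ∑ τ' : Equiv.Perm (Fin g),
      (((Equiv.Perm.sign τ : ℤ) : ℂ) * ((Equiv.Perm.sign τ' : ℤ) : ℂ)) *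
        ∏ i, (NB (x i) (τ i) * starRingEnd ℂ (NB (x i) (τ' i))) := by
  have h1 : (MB x).det = ∑ τ : Equiv.Perm (Fin g), ((Equiv.Perm.sign τ : ℤ) : ℂ) *
      ∏ i, NB (x i) (τ i) := by
    rw [← Matrix.det_transpose, Matrix.det_apply']
    rfl
  have h2 : ((‖(MB x).det‖ ^ 2 : ℝ) : ℂ) = (MB x).det * starRingEnd ℂ (MB x).det := by
    rw [Complex.mul_conj, Complex.normSq_eq_norm_sq]
  rw [h2, h1, map_sum, sum_mul_sum]
  refine sum_congr rfl fun τ _ => sum_congr rfl fun τ' _ => ?_
  rw [map_mul, map_prod, prod_mul_distrib, map_intCast]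
  ring

theorem mass_WB (g : ℕ) : ∫ x, dens (bRoots g) x ∂(vol (Fin g)) = Nat.card (sympW g) := by
  have h0 : ((∫ x, dens (bRoots g) x ∂(vol (Fin g)) : ℝ) : ℂ) = ((Nat.card (sympW g) : ℝ) : ℂ) := by
    rw [← integral_complex_ofReal]
    simp_rw [dens_eqB]
    have h1 : ∀ x : UnitAddTorus (Fin g), ((‖(MB x).det‖ ^ 2 : ℝ) : ℂ) = _ := fun x => det_sqB x
    simp_rw [h1]
    unfold vol
    have hc : ∀ τ τ' : Equiv.Perm (Fin g), Integrable (fun x : UnitAddTorus (Fin g) =>
        (((Equiv.Perm.sign τ : ℤ) : ℂ) * ((Equiv.Perm.sign τ' : ℤ) : ℂ)) *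
        ∏ i, (NB (x i) (τ i) * starRingEnd ℂ (NB (x i) (τ' i))))
        (Measure.pi fun _ => (AddCircle.haarAddCircle : Measure UnitAddCircle)) := by
      intro τ τ'
      refine Continuous.integrable_of_hasCompactSupport ?_ (HasCompactSupport.of_compactSpace _)
      refine continuous_const.mul (continuous_finset_prod _ fun i _ => ?_)
      exact ((NB_cont _).comp (continuous_apply i)).mul
        (Complex.continuous_conj.comp ((NB_cont _).comp (continuous_apply i)))
    rw [integral_finsetSum _ fun τ _ => integrable_finsetSum _ fun τ' _ => hc τ τ']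
    simp_rw [integral_finsetSum _ fun τ' _ => hc _ τ']
    have h2 : ∀ τ τ' : Equiv.Perm (Fin g), ∫ x : UnitAddTorus (Fin g),
        (((Equiv.Perm.sign τ : ℤ) : ℂ) * ((Equiv.Perm.sign τ' : ℤ) : ℂ)) *
        ∏ i, (NB (x i) (τ i) * starRingEnd ℂ (NB (x i) (τ' i)))
        ∂(Measure.pi fun _ => (AddCircle.haarAddCircle : Measure UnitAddCircle)) =
        if τ = τ' then 2 ^ g else 0 := by
      intro τ τ'
      rw [integral_const_mul, integral_fintype_prod_eq_prod
        (fun i y => NB y (τ i) * starRingEnd ℂ (NB y (τ' i)))]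
      simp_rw [int_NB]
      split_ifs with h
      · subst h
        simp only [if_true, prod_const, card_univ, Fintype.card_fin]
        rcases Int.units_eq_one_or (Equiv.Perm.sign τ) with h3 | h3 <;> rw [h3] <;> simp
      · obtain ⟨i, hi⟩ : ∃ i, τ i ≠ τ' i := by
          by_contra hcon
          push Not at hcon
          exact h (Equiv.ext hcon)
        rw [prod_eq_zero (mem_univ i), mul_zero]
        rw [if_neg]
        intro hc
        exact hi (Fin.ext hc)
    simp_rw [h2]
    rw [card_W]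
    simp only [sum_ite_eq, mem_univ, if_true, sum_const, card_univ, Fintype.card_perm,
      Fintype.card_fin, nsmul_eq_mul]
    push_cast
    rfl
  exact_mod_cast h0

theorem main (g : ℕ) : IsWeylDatum (sympW g) (bRoots g) := by
  refine ⟨?_, ?_, inv_WB, mass_WB g⟩
  · exact Finite.of_surjective _ (toW_bij g).2
  · intro α hα
    unfold bRoots at hα
    simp only [mem_image, mem_univ, true_and, mem_filter, Prod.exists, mem_union] at hα
    rintro rfl
    rcases hα with (⟨i, h⟩ | ⟨i, j, hij, h⟩) | ⟨i, j, hij, h⟩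
    · have h1 := congrFun h i
      simp at h1
    · have h1 := congrFun h i
      simp only [Pi.sub_apply, Pi.single_apply, Pi.zero_apply] at h1
      split_ifs at h1 <;> omega
    · have h1 := congrFun h i
      simp only [Pi.add_apply, Pi.single_apply, Pi.zero_apply] at h1
      split_ifs at h1 <;> omega

theorem t : StmB := fun m => main m

end

end Pool.Agent.Y629.OG
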